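import Pool.Agent.LE.StmtsQ
import Pool.Agent.Helper19_LSH.PCR

/-!
# FKI: the Faber-Krahn inequality with an error (squad LSC, MP_1906c1_mp)
-/

set_option autoImplicit false

open scoped BigOperators

noncomputable section

namespace Pool.Agent.LE.CL.H18

open Pool.Agent.Anderson Pool.Agent.Loc Pool.Agent.LE Pool.Agent.LE.H19Z Pool.Agent.LE.CL

theorem sum_le_of_zero {ι : Type} [DecidableEq ι] {s t : Finset ι} {F : ι → ℝ}
    (h0 : ∀ x, 0 ≤ F x) (h : ∀ x ∈ s, x ∉ t → F x = 0) : ∑ x ∈ s, F x ≤ ∑ x ∈ t, F x := by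
  have h1 : ∑ x ∈ s with x ∈ t, F x = ∑ x ∈ s, F x := by
    refine Finset.sum_filter_of_ne ?_
    intro x hx hne
    by_contra hxt
    exact hne (h x hx hxt)
  rw [← h1]
  refine Finset.sum_le_sum_of_subset_of_nonneg ?_ fun x _ _ => h0 x
  intro x hx
  exact (Finset.mem_filter.1 hx).2

/-- the inequality in one cube -/
theorem cell {d : ℕ} (φ : Site d → ℝ) (c : Site d) (m : ℕ) (C' : Finset (Site d)) (hd : 1 ≤ d)
    (hC : 4 * C'.card ≤ (2 * m + 1) ^ d) :
    ∑ x ∈ box c m, φ x ^ 2 ≤ 2 * d * (2 * (m : ℝ) + 1) ^ 2 * eg φ c m +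
      4 * (∑ x ∈ box c m \ C', |φ x|) ^ 2 := by
  classical
  obtain ⟨N, hN⟩ : ∃ N : ℝ, N = (2 * (m : ℝ) + 1) ^ d := ⟨_, rfl⟩
  have hN1 : 1 ≤ N := by
    rw [hN]
    refine one_le_pow₀ ?_
    have : (0 : ℝ) ≤ m := Nat.cast_nonneg m
    linarith
  have hN0 : 0 < N := by linarith
  have hcard := card_bx c m
  rw [← hN] at hcard
  have hC' : 4 * (C'.card : ℝ) ≤ N := by
    rw [hN]
    exact_mod_cast hC
  obtain ⟨S, hS⟩ : ∃ S : ℝ, S = ∑ x ∈ box c m, φ x := ⟨_, rfl⟩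
  obtain ⟨A, hA⟩ : ∃ A : ℝ, A = av φ c m := ⟨_, rfl⟩
  have hSA : S = N * A := by
    rw [hA, av, ← hS, ← hN]
    field_simp
  have hp := pcr d φ c m hd
  rw [← hA] at hp
  have hvar : ∑ x ∈ box c m, (φ x - A) ^ 2 = ∑ x ∈ box c m, φ x ^ 2 - N * A ^ 2 := by
    have e1 : ∀ x ∈ box c m, (φ x - A) ^ 2 = φ x ^ 2 - 2 * A * φ x + A ^ 2 := fun x _ => by ring
    rw [Finset.sum_congr rfl e1, Finset.sum_add_distrib, Finset.sum_sub_distrib,
      ← Finset.mul_sum, ← hS, Finset.sum_const, nsmul_eq_mul, hcard, hSA]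
    ring
  obtain ⟨S₁, hS₁⟩ : ∃ S₁ : ℝ, S₁ = ∑ x ∈ box c m ∩ C', φ x := ⟨_, rfl⟩
  obtain ⟨S₂, hS₂⟩ : ∃ S₂ : ℝ, S₂ = ∑ x ∈ box c m \ C', φ x := ⟨_, rfl⟩
  obtain ⟨B, hB⟩ : ∃ B : ℝ, B = ∑ x ∈ box c m \ C', |φ x| := ⟨_, rfl⟩
  obtain ⟨X, hX⟩ : ∃ X : ℝ, X = ∑ x ∈ box c m, φ x ^ 2 := ⟨_, rfl⟩
  have hX0 : 0 ≤ X := by
    rw [hX]
    exact Finset.sum_nonneg fun _ _ => sq_nonneg _
  have hsplit : S = S₁ + S₂ := by
    rw [hS, hS₁, hS₂, Finset.sum_inter_add_sum_sdiff]
  have h2 : S₂ ^ 2 ≤ B ^ 2 := by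
    have h3 : |S₂| ≤ B := by
      rw [hS₂, hB]
      exact Finset.abs_sum_le_sum_abs _ _
    rw [← sq_abs S₂]
    exact pow_le_pow_left₀ (abs_nonneg _) h3 2
  have h1 : S₁ ^ 2 ≤ N / 4 * X := by
    have e1 := sq_sum_le_card_mul_sum_sq (s := box c m ∩ C') (f := φ)
    rw [← hS₁] at e1
    have e2 : ((box c m ∩ C').card : ℝ) ≤ C'.card := by
      exact_mod_cast Finset.card_le_card Finset.inter_subset_right
    have e3 : ∑ x ∈ box c m ∩ C', φ x ^ 2 ≤ X := by
      rw [hX]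
      exact Finset.sum_le_sum_of_subset_of_nonneg Finset.inter_subset_left
        fun _ _ _ => sq_nonneg _
    have e4 : ((box c m ∩ C').card : ℝ) ≤ N / 4 := by linarith
    refine e1.trans ?_
    exact mul_le_mul e4 e3 (Finset.sum_nonneg fun _ _ => sq_nonneg _) (by positivity)
  have hNA : N * (N * A ^ 2) ≤ 2 * (N / 4 * X) + 2 * B ^ 2 := by
    have e1 : N * (N * A ^ 2) = S ^ 2 := by rw [hSA]; ring
    rw [e1, hsplit]
    nlinarith [sq_nonneg (S₁ - S₂)]
  have hNA2 : N * A ^ 2 ≤ 1 / 2 * X + 2 * B ^ 2 := by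
    by_contra hcon
    rw [not_le] at hcon
    have e1 : N * (1 / 2 * X + 2 * B ^ 2) < N * (N * A ^ 2) := mul_lt_mul_of_pos_left hcon hN0
    have e2 : 2 * B ^ 2 ≤ N * (2 * B ^ 2) := le_mul_of_one_le_left (by positivity) hN1
    nlinarith
  rw [← hX] at hvar
  rw [hvar] at hp
  rw [← hX, ← hB]
  linarith

/-- the index of the cube which contains `x` -/
def cix {d : ℕ} (m : ℕ) (x : Site d) : Site d := fun i => (x i + m) / (2 * m + 1)

/-- the centre of a cube -/
def cen {d : ℕ} (m : ℕ) (p : Site d) : Site d := fun i => (2 * m + 1) * p i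

theorem mem_cen {d : ℕ} (m : ℕ) (p x : Site d) : x ∈ box (cen m p) m ↔ cix m x = p := by
  rw [mem_bx]
  have hpos : (0 : ℤ) < 2 * (m : ℤ) + 1 := by positivity
  constructor
  · intro h
    funext i
    have h1 := (h i).1
    have h2 := (h i).2
    unfold cen at h1 h2
    unfold cix
    have e : x i + m = (x i + m - (2 * m + 1) * p i) + (2 * m + 1) * p i := by ring
    rw [e, Int.add_mul_ediv_left _ _ hpos.ne', Int.ediv_eq_zero_of_lt]
    · ring
    · linarith
    · linarith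
  · intro h i
    have h1 : (x i + m) / (2 * m + 1) = p i := by
      rw [← h]
      rfl
    have h2 := Int.emod_add_mul_ediv (x i + m) (2 * m + 1)
    have h3 := Int.emod_nonneg (x i + m) hpos.ne'
    have h4 := Int.emod_lt_of_pos (x i + m) hpos
    rw [h1] at h2
    unfold cen
    constructor
    · linarith
    · linarith

theorem fki : FkiStmt := by
  intro d φ b r m C' hd hφ hC
  classical
  obtain ⟨P, hP⟩ : ∃ P : Finset (Site d), P = (box b r).image (cix m) := ⟨_, rfl⟩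
  have hdis : (P : Set (Site d)).PairwiseDisjoint fun p => box (cen m p) m := by
    intro p _ q _ hpq
    rw [Function.onFun, Finset.disjoint_left]
    intro x hx hx'
    rw [mem_cen] at hx hx'
    exact hpq (hx.symm.trans hx')
  have hdis' : (P : Set (Site d)).PairwiseDisjoint fun p => box (cen m p) m \ C' := by
    intro p hp q hq hpq
    exact Finset.disjoint_of_subset_left Finset.sdiff_subset
      (Finset.disjoint_of_subset_right Finset.sdiff_subset (hdis hp hq hpq))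
  -- the squares
  have h1 : ∑ x ∈ box b r, φ x ^ 2 ≤ ∑ p ∈ P, ∑ x ∈ box (cen m p) m, φ x ^ 2 := by
    rw [← Finset.sum_biUnion hdis]
    refine Finset.sum_le_sum_of_subset_of_nonneg ?_ fun _ _ _ => sq_nonneg _
    intro x hx
    rw [Finset.mem_biUnion]
    refine ⟨cix m x, ?_, (mem_cen m _ x).2 rfl⟩
    rw [hP]
    exact Finset.mem_image_of_mem _ hx
  -- the energy
  have h2 : ∑ p ∈ P, eg φ (cen m p) m ≤ gd φ (box b (r + 1)) := by
    have e1 : ∀ p ∈ P, eg φ (cen m p) m ≤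
        ∑ x ∈ box (cen m p) m, ∑ i : Fin d, (φ (x + Pi.single i 1) - φ x) ^ 2 := by
      intro p _
      unfold eg
      refine Finset.sum_le_sum fun x _ => Finset.sum_le_sum fun i _ => ?_
      split_ifs
      · exact le_rfl
      · exact sq_nonneg _
    refine (Finset.sum_le_sum e1).trans ?_
    rw [← Finset.sum_biUnion hdis]
    unfold gd
    refine sum_le_of_zero (fun x => Finset.sum_nonneg fun _ _ => sq_nonneg _) ?_
    intro x _ hx
    refine Finset.sum_eq_zero fun i _ => ?_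
    have a1 : x ∉ box b r := by
      intro h
      apply hx
      rw [mem_bx] at h ⊢
      intro j
      have := h j
      push_cast
      constructor
      · linarith [this.1]
      · linarith [this.2]
    have a2 : x + Pi.single i 1 ∉ box b r := by
      intro h
      apply hx
      rw [mem_bx] at h ⊢
      intro j
      have h3 := h j
      have h4 : (0 : ℤ) ≤ (Pi.single i (1 : ℤ) : Fin d → ℤ) j ∧
          (Pi.single i (1 : ℤ) : Fin d → ℤ) j ≤ 1 := by
        by_cases hj : j = i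
        · subst hj
          rw [Pi.single_eq_same]
          exact ⟨zero_le_one, le_rfl⟩
        · rw [Pi.single_eq_of_ne hj]
          exact ⟨le_rfl, zero_le_one⟩
      rw [Pi.add_apply] at h3
      push_cast
      constructor
      · linarith [h3.1, h4.1, h4.2]
      · linarith [h3.2, h4.1, h4.2]
    rw [hφ _ a1, hφ _ a2]
    norm_num
  -- the error
  obtain ⟨f, hf⟩ : ∃ f : Site d → ℝ, f = fun p => ∑ x ∈ box (cen m p) m \ C', |φ x| := ⟨_, rfl⟩
  have hf0 : ∀ p, 0 ≤ f p := by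
    intro p
    rw [hf]
    exact Finset.sum_nonneg fun _ _ => abs_nonneg _
  have h3 : ∑ p ∈ P, f p ≤ ∑ x ∈ box b r \ C', |φ x| := by
    rw [hf, ← Finset.sum_biUnion hdis']
    refine sum_le_of_zero (fun x => abs_nonneg _) ?_
    intro x hx hx'
    rw [Finset.mem_biUnion] at hx
    obtain ⟨p, _, hxp⟩ := hx
    rw [Finset.mem_sdiff] at hxp hx'
    have : x ∉ box b r := fun h => hx' ⟨h, hxp.2⟩
    rw [hφ x this, abs_zero]
  have h4 : ∑ p ∈ P, f p ^ 2 ≤ (∑ x ∈ box b r \ C', |φ x|) ^ 2 := by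
    have e1 : ∑ p ∈ P, f p ^ 2 ≤ (∑ p ∈ P, f p) ^ 2 := by
      rw [sq (∑ p ∈ P, f p), Finset.sum_mul]
      refine Finset.sum_le_sum fun p hp => ?_
      rw [sq]
      exact mul_le_mul_of_nonneg_left (Finset.single_le_sum (fun q _ => hf0 q) hp) (hf0 p)
    exact e1.trans (pow_le_pow_left₀ (Finset.sum_nonneg fun p _ => hf0 p) h3 2)
  have h5 : ∑ p ∈ P, ∑ x ∈ box (cen m p) m, φ x ^ 2 ≤
      2 * d * (2 * (m : ℝ) + 1) ^ 2 * ∑ p ∈ P, eg φ (cen m p) m + 4 * ∑ p ∈ P, f p ^ 2 := by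
    rw [Finset.mul_sum, Finset.mul_sum, ← Finset.sum_add_distrib]
    refine Finset.sum_le_sum fun p _ => ?_
    rw [hf]
    exact cell φ (cen m p) m C' hd hC
  have h6 : 0 ≤ 2 * (d : ℝ) * (2 * (m : ℝ) + 1) ^ 2 := by positivity
  have h7 := mul_le_mul_of_nonneg_left h2 h6
  linarith

end Pool.Agent.LE.CL.H18
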